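import Pool.Agent.J6H58.MC.Stm
import Pool.Agent.J6H40.BC.Fix

/-!
# The fixed proof (module 5)
-/

set_option autoImplicit false

namespace Pool.Agent.J6H30.MC

open Pool.Agent.TH672 (Fm Str upd varStr num digits LogK ReplK Sw Pv upd_same upd_ne upd_upd
  upd_self)
open Pool.Agent.TH636.BC (Fml IsProof str strs Proves code robinson Arith PrRel lt col TE)
open Pool.Agent.TH838.J1549 (Q exists_Q closed_robinson pv_proof sat_cong)
open Pool.Agent.J6H49.BC (WB U0 XX Wn)
open Pool.Agent.J6H40.BC (closed_U0 closed_TE free_XX)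
open Pool.Agent.J6H58.MC

/-! ### free variables -/

theorem free_dig {x y : ℕ} {b : Bool} {φ : Fml} (h : (dig x b φ).Free y) :
    y = x ∨ φ.Free y := by
  cases b
  · simp only [dig, Bool.false_eq_true, if_false, Fm.Free] at h
    tauto
  · simp only [dig, if_true, Fm.Free] at h
    tauto

theorem free_digs {x y : ℕ} {φ : Fml} : ∀ {σ : List Bool}, (σ.foldr (dig x) φ).Free y →
    y = x ∨ φ.Free y
  | [], h => .inr h
  | b :: σ, h => by
    rcases free_dig h with h1 | h1
    · exact .inl h1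
    · exact free_digs h1

theorem free_dnum {x n y : ℕ} {φ : Fml} (h : (dnum x n φ).Free y) : y ≠ x ∧ φ.Free y := by
  simp only [dnum, Fm.Free] at h
  obtain ⟨h1, h2 | h2⟩ := h
  · exact absurd h2 h1
  · rcases free_digs h2 with h3 | h3
    · exact absurd h3 h1
    · exact ⟨h1, h3⟩

theorem free_Xi {P : Fml} (hP : Num P) {x : ℕ} (h : (Xi P).Free x) : x = 2 ∨ x = 3 := by
  obtain ⟨h1, h2⟩ := free_dnum h
  simp only [Fm.neg, Fm.Free, or_false] at h2
  have := hP.free x h2
  omega

theorem free_GG {P G : Fml} (hG : NumG P G) {x : ℕ} (h : (GG G).Free x) : x = 29 ∨ x = 31 := by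
  obtain ⟨h1, (h2 | h2) | ⟨h3, (h4 | h4) | ⟨h5, (h6 | h6) | h7⟩⟩⟩ := h
  · omega
  · omega
  · omega
  · omega
  · omega
  · omega
  · have := hG.free x h7
    omega

theorem free_rg {P G : Fml} (hP : Num P) (hG : NumG P G) {x : ℕ} (h : (rg P G).Free x) :
    x = 29 := by
  obtain ⟨h1, h2 | ⟨h2, h3, h4, h5 | ⟨h5, h6 | h6 | h6⟩⟩⟩ := h
  · have := free_GG hG h2
    omega
  · simp only [Ew, Fm.Free] at h5
    omega
  · simp only [Kw, Fm.Free] at h6
    omega
  · have := free_XX h6
    omega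
  · have := free_Xi hP h6
    omega

theorem closed_EX : ∀ ψ ∈ EX, ψ.Closed := by
  simp only [EX, List.mem_cons, List.not_mem_nil, or_false, forall_eq_or_imp, forall_eq]
  refine ⟨?_, ?_, ?_, ?_, ?_, ?_, ?_, ?_, ?_, ?_, ?_⟩
  · intro x h
    simp only [Rf, Fm.Free] at h
    omega
  · intro x h
    simp only [Rf, Fm.Free] at h
    omega
  · intro x h
    simp only [Rf, Fm.Free] at h
    omega
  · rintro x ⟨h1, h2, h3, h4 | h4 | ⟨h5, h4 | h4⟩⟩
    · exact h1 h4
    · simp only [Rf, Fm.Free] at h4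
      omega
    · simp only [Fm.Free] at h4
      omega
    · rcases free_dig h4 with h6 | h6
      · omega
      · simp only [Fm.Free] at h6
        omega
  · rintro x ⟨h1, h2, h3, h8, h4 | h4 | h4 | ⟨h5, h4 | h4⟩⟩
    · exact h1 h4
    · simp only [Rf, Fm.Free] at h4
      omega
    · simp only [Fm.Free] at h4
      omega
    · simp only [Fm.Free] at h4
      omega
    · rcases free_dig h4 with h6 | h6
      · omega
      · simp only [Fm.Free] at h6
        omega
  · rintro x ⟨h1, h2, h4 | h4 | ⟨h5, h4 | h4⟩⟩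
    · exact h1 h4
    · simp only [Fm.Free] at h4
      omega
    · exact h5 h4
    · rcases free_digs h4 with h6 | h6
      · omega
      · simp only [Ew, Fm.Free] at h6
        omega
  · rintro x ⟨h1, h2, h3, h8, h4 | h4 | ⟨h5, h4 | h4⟩⟩
    · simp only [Fm.Free] at h4
      omega
    · simp only [Rf, Fm.Free] at h4
      omega
    · simp only [Ew, Fm.Free] at h4
      omega
    · rcases free_digs h4 with h6 | h6
      · omega
      · simp only [Ew, Fm.Free] at h6
        omega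
  · intro x h
    simp only [Ew, Fm.Free] at h
    omega
  · intro x h
    simp only [Ew, Kw, Fm.Free] at h
    omega
  · rintro x ⟨h1, h2, h3, h4 | h4⟩
    · simp only [Kw, Fm.Free] at h4
      omega
    · rcases free_dig h4 with h6 | h6
      · omega
      · rcases free_dig h6 with h7 | h7
        · omega
        · simp only [Kw, Fm.Free] at h7
          omega
  · rintro x ⟨h1, h2, h3, h4 | h4⟩
    · simp only [Kw, Fm.Free] at h4
      omega
    · rcases free_dig h4 with h6 | h6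
      · omega
      · rcases free_dig h6 with h7 | h7
        · omega
        · simp only [Kw, Fm.Free] at h7
          omega

theorem closed_AA {P G : Fml} (hP : Num P) (hG : NumG P G) : ∀ ψ ∈ AA P G, ψ.Closed := by
  intro ψ hψ
  simp only [AA, WF, WB, List.mem_cons, List.mem_append] at hψ
  rcases hψ with rfl | ((hψ | hψ) | hψ) | hψ
  · intro x hx
    obtain ⟨h2, h3⟩ := free_dnum hx
    exact h2 (free_rg hP hG h3)
  · exact closed_robinson ψ hψ
  · exact closed_U0 ψ hψ
  · exact closed_TE ψ hψ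
  · exact closed_EX ψ hψ

theorem closed_Th {P : Fml} (hP : Num P) (σ : List Bool) : (Th σ (Xi P)).Closed := by
  rintro x ⟨h1, h2, h3 | ⟨h3, h4 | ⟨h4, h5 | h5⟩⟩⟩
  · simp only [Wn, col, lt, Fm.neg, Fm.Free, or_false] at h3
    omega
  · simp only [Fm.Free] at h4
    omega
  · simp only [Ew, Fm.Free] at h5
    omega
  · rcases free_digs h5 with h6 | h6
    · exact h4 h6
    · have := free_Xi hP h6
      omega

/-! ### digits in a structure -/

variable {S : Str ℕ}

/-- one more digit -/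
def stp (q : Q S) (b : Bool) (w : S.M) : S.M := if b then q.s (q.s (q.a w w)) else q.s (q.a w w)

theorem sat_dig (q : Q S) {x : ℕ} (hx : 2 ≤ x) {φ : Fml} (h0 : ¬ φ.Free 0) (h1 : ¬ φ.Free 1)
    (b : Bool) (v : ℕ → S.M) :
    Fm.Sat S (dig x b φ) v ↔ Fm.Sat S φ (upd v x (stp q b (v x))) := by
  have hx0 : x ≠ 0 := by omega
  have hx1 : x ≠ 1 := by omega
  cases b
  · simp only [dig, stp, Bool.false_eq_true, if_false, Fm.sat_all, Fm.sat_imp, Fm.sat_add,
      Fm.sat_succ, q.add_iff, q.succ_iff, upd_same, upd_ne _ _ hx0, upd_ne _ _ hx0.symm, forall_eq]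
    refine sat_cong fun y hy => ?_
    by_cases hyx : y = x
    · rw [hyx, upd_same, upd_same]
    · have hy0 : y ≠ 0 := fun e => h0 (e ▸ hy)
      rw [upd_ne _ _ hyx, upd_ne _ _ hyx, upd_ne _ _ hy0]
  · simp only [dig, stp, if_true, Fm.sat_all, Fm.sat_imp, Fm.sat_add,
      Fm.sat_succ, q.add_iff, q.succ_iff, upd_same, upd_ne _ _ hx0, upd_ne _ _ hx0.symm,
      upd_ne _ _ hx1, upd_ne _ _ hx1.symm, upd_ne _ _ (show (0 : ℕ) ≠ 1 by decide), forall_eq]
    refine sat_cong fun y hy => ?_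
    by_cases hyx : y = x
    · rw [hyx, upd_same, upd_same]
    · have hy0 : y ≠ 0 := fun e => h0 (e ▸ hy)
      have hy1 : y ≠ 1 := fun e => h1 (e ▸ hy)
      rw [upd_ne _ _ hyx, upd_ne _ _ hyx, upd_ne _ _ hy1, upd_ne _ _ hy0]

theorem not_free_digs {x y : ℕ} {φ : Fml} (h : ¬ φ.Free y) (hyx : y ≠ x) (σ : List Bool) :
    ¬ (σ.foldr (dig x) φ).Free y := fun h' => by
  rcases free_digs h' with h1 | h1
  · exact hyx h1
  · exact h h1

theorem sat_digs (q : Q S) {x : ℕ} (hx : 2 ≤ x) {φ : Fml} (h0 : ¬ φ.Free 0) (h1 : ¬ φ.Free 1) :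
    ∀ (σ : List Bool) (v : ℕ → S.M), Fm.Sat S (σ.foldr (dig x) φ) v ↔
      Fm.Sat S φ (upd v x (σ.foldl (fun w b => stp q b w) (v x)))
  | [], v => by
    rw [List.foldr_nil, List.foldl_nil, upd_self]
  | b :: σ, v => by
    rw [List.foldr_cons, sat_dig q hx (not_free_digs h0 (by omega) σ)
      (not_free_digs h1 (by omega) σ), sat_digs q hx h0 h1 σ, upd_same, upd_upd, List.foldl_cons]

theorem stp_nm (q : Q S) (b : Bool) (n : ℕ) :
    stp q b (q.nm n) = q.nm (2 * n + if b then 2 else 1) := by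
  cases b
  · simp only [stp, Bool.false_eq_true, if_false, q.nm_add]
    rw [two_mul]
    rfl
  · simp only [stp, if_true, q.nm_add]
    rw [two_mul]
    rfl

theorem foldl_nm (q : Q S) (σ : List Bool) :
    σ.foldl (fun w b => stp q b w) q.o = q.nm (num σ) := by
  induction σ using List.reverseRecOn with
  | nil => rfl
  | append_singleton σ b ih =>
    rw [List.foldl_append, ih, Pool.Agent.TH197.J1545.num_snoc, List.foldl_cons, List.foldl_nil,
      stp_nm]

theorem num_digits (n : ℕ) : num (digits n) = n := by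
  induction n using Nat.strong_induction_on with
  | _ n ih =>
    rcases Nat.eq_zero_or_pos n with rfl | hn
    · rw [Pool.Agent.TH197.J1545.digits_zero]
      rfl
    · obtain ⟨m, hm | hm⟩ : ∃ m, n = 2 * m + 1 ∨ n = 2 * m + 2 := ⟨(n - 1) / 2, by omega⟩
      · rw [hm, Pool.Agent.TH197.J1545.digits_odd, Pool.Agent.TH197.J1545.num_snoc,
          ih m (by omega)]
        simp
      · rw [hm, Pool.Agent.TH197.J1545.digits_even, Pool.Agent.TH197.J1545.num_snoc,
          ih m (by omega)]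
        simp

theorem sat_dnum (q : Q S) {x : ℕ} (hx : 2 ≤ x) {φ : Fml} (h0 : ¬ φ.Free 0) (h1 : ¬ φ.Free 1)
    (n : ℕ) (v : ℕ → S.M) : Fm.Sat S (dnum x n φ) v ↔ Fm.Sat S φ (upd v x (q.nm n)) := by
  unfold dnum
  rw [Fm.sat_all]
  have e : ∀ a : S.M, Fm.Sat S (.imp (.zero x) ((digits n).foldr (dig x) φ)) (upd v x a) ↔
      (a = q.o → Fm.Sat S φ (upd v x (q.nm n))) := by
    intro a
    rw [Fm.sat_imp, Fm.sat_zero, q.zero_iff, upd_same]
    refine imp_congr_right fun ha => ?_
    rw [sat_digs q hx h0 h1, upd_same, upd_upd, ha, foldl_nm]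
    rw [num_digits]
  simp only [e, forall_eq]

/-! ### the concatenation in a structure -/

theorem op8 (q : Q S) (hE : ∀ φ ∈ EX, ∀ v : ℕ → S.M, Fm.Sat S φ v) (v : ℕ → S.M) {k x u : S.M}
    (h7 : S.op 7 k x u u) (σ : List Bool) :
    S.op 8 u (q.nm (num σ)) (σ.foldl (fun w b => stp q b w) u)
      (σ.foldl (fun w b => stp q b w) u) := by
  simp only [EX, List.mem_cons, List.not_mem_nil, or_false, forall_eq_or_imp, forall_eq] at hE
  obtain ⟨-, -, -, -, -, -, -, -, e9, e10, e11⟩ := hE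
  have key : ∀ (b : Bool) (a w : S.M), S.op 8 u a w w →
      Fm.Sat S (dig 17 b (dig 2 b (Kw 15 17 2))) (upd (upd (upd v 15 u) 17 a) 2 w) := by
    intro b a w h
    cases b
    · have h1 := e10 v
      rw [Fm.sat_all] at h1
      replace h1 := h1 u
      rw [Fm.sat_all] at h1
      replace h1 := h1 a
      rw [Fm.sat_all] at h1
      replace h1 := h1 w
      rw [Fm.sat_imp] at h1
      exact h1 (by simpa [Kw, upd] using h)
    · have h1 := e11 v
      rw [Fm.sat_all] at h1
      replace h1 := h1 u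
      rw [Fm.sat_all] at h1
      replace h1 := h1 a
      rw [Fm.sat_all] at h1
      replace h1 := h1 w
      rw [Fm.sat_imp] at h1
      exact h1 (by simpa [Kw, upd] using h)
  induction σ using List.reverseRecOn with
  | nil =>
    have h1 := e9 v
    rw [Fm.sat_all] at h1
    replace h1 := h1 k
    rw [Fm.sat_all] at h1
    replace h1 := h1 x
    rw [Fm.sat_all] at h1
    replace h1 := h1 u
    rw [Fm.sat_all] at h1
    replace h1 := h1 q.o
    rw [Fm.sat_imp, Fm.sat_imp, Fm.sat_zero, q.zero_iff] at h1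
    have h2 := h1 (by simpa [Ew, upd] using h7) (by rw [upd_same])
    have h3 : S.op 8 u q.o u u := by simpa [Kw, upd] using h2
    exact h3
  | append_singleton σ b ih =>
    have h1 := key b _ _ ih
    have f0 : ¬ (dig 2 b (Kw 15 17 2)).Free 0 := fun h => by
      rcases free_dig h with h | h
      · omega
      · simp only [Kw, Fm.Free] at h
        omega
    have f1 : ¬ (dig 2 b (Kw 15 17 2)).Free 1 := fun h => by
      rcases free_dig h with h | h
      · omega
      · simp only [Kw, Fm.Free] at h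
        omega
    rw [sat_dig q (by omega) f0 f1, sat_dig q (by omega) (by simp [Kw, Fm.Free])
      (by simp [Kw, Fm.Free])] at h1
    rw [List.foldl_append, List.foldl_cons, List.foldl_nil, Pool.Agent.TH197.J1545.num_snoc,
      ← stp_nm]
    simpa [Kw, upd] using h1

/-! ### the fixed proof -/

theorem sat_Th {P G : Fml} (hP : Num P) (hG : NumG P G) (v : ℕ → S.M)
    (hv : ∀ ψ ∈ AA P G, Fm.Sat S ψ v) : Fm.Sat S (Th (tau P (zn P G)) (Xi P)) v := by
  have hall : ∀ ψ ∈ AA P G, ∀ w : ℕ → S.M, Fm.Sat S ψ w := fun ψ hψ w =>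
    (sat_cong fun x hx => absurd hx (closed_AA hP hG ψ hψ x)).1 (hv ψ hψ)
  have hR : ∀ ψ ∈ robinson, ∀ w : ℕ → S.M, Fm.Sat S ψ w := fun ψ hψ =>
    hall ψ (by simp [AA, WF, WB, hψ])
  have hE : ∀ ψ ∈ EX, ∀ w : ℕ → S.M, Fm.Sat S ψ w := fun ψ hψ =>
    hall ψ (by simp [AA, WF, hψ])
  obtain ⟨q⟩ := exists_Q v fun ψ hψ => hR ψ hψ v
  have hG2 : ∀ x, G.Free x → x ≠ 0 ∧ x ≠ 1 := fun x hx => by
    have := hG.free x hx
    omega
  -- `G` is true
  have hGt : ∀ w : ℕ → S.M, Fm.Sat S G (upd (upd (upd w 2 (q.nm (zn P G))) 3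
      (q.nm (num (tau P (zn P G))))) 4 (q.nm (num (tau P (zn P G))))) := by
    intro w
    obtain ⟨k, hk⟩ := hG.pos (zn P G) _ (num (tau P (zn P G))) rfl
    have h1 := Pool.Agent.TH197.J1545.sat_proves hR hk w
    have g0 : ¬ G.Free 0 := fun h => (hG2 0 h).1 rfl
    have g1 : ¬ G.Free 1 := fun h => (hG2 1 h).2 rfl
    rw [sat_dnum q (by omega) (fun h => g0 (free_dnum (free_dnum h).2).2)
      (fun h => g1 (free_dnum (free_dnum h).2).2),
      sat_dnum q (by omega) (fun h => g0 (free_dnum h).2) (fun h => g1 (free_dnum h).2),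
      sat_dnum q (by omega) g0 g1] at h1
    exact h1
  have hrg : Fm.Sat S (rg P G) (upd v 29 (q.nm (zn P G))) := by
    have h1 := hall (rgs P G) (by simp [AA]) v
    unfold rgs at h1
    rwa [sat_dnum q (by omega) (fun h => absurd (free_rg hP hG h) (by omega))
      (fun h => absurd (free_rg hP hG h) (by omega))] at h1
  unfold Th
  rw [Fm.sat_all]
  intro k
  rw [Fm.sat_all]
  intro x
  rw [Fm.sat_imp, Fm.sat_neg]
  intro hW
  rw [Fm.sat_all]
  intro a
  rw [Fm.sat_imp, Fm.sat_eq, upd_same, upd_ne _ _ (show (17 : ℕ) ≠ 3 by decide), upd_same]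
  rintro rfl
  rw [Fm.sat_all]
  intro u
  rw [Fm.sat_imp]
  intro hu
  have h7 : S.op 7 k a u u := by simpa [Ew, upd] using hu
  rw [sat_digs q (by omega) (fun h => by have := free_Xi hP h; omega)
    (fun h => by have := free_Xi hP h; omega), upd_same]
  have h8 := op8 q hE v h7 (tau P (zn P G))
  obtain ⟨T, hT⟩ : ∃ T : S.M, T = q.nm (num (tau P (zn P G))) := ⟨_, rfl⟩
  obtain ⟨w, hw⟩ : ∃ w : S.M, w = (tau P (zn P G)).foldl (fun w b => stp q b w) u := ⟨_, rfl⟩
  rw [← hw, ← hT] at h8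
  rw [← hT] at hGt
  rw [← hw]
  unfold rg at hrg
  rw [Fm.sat_all] at hrg
  have h1 := hrg T
  rw [Fm.sat_imp] at h1
  have h2 := h1 (by
    unfold GG
    rw [Fm.sat_all]
    intro a2
    rw [Fm.sat_imp, Fm.sat_eq, upd_same, upd_ne _ _ (show (29 : ℕ) ≠ 2 by decide),
      upd_ne _ _ (show (29 : ℕ) ≠ 31 by decide), upd_same]
    rintro rfl
    rw [Fm.sat_all]
    intro a3
    rw [Fm.sat_imp, Fm.sat_eq, upd_same, upd_ne _ _ (show (31 : ℕ) ≠ 3 by decide),
      upd_ne _ _ (show (31 : ℕ) ≠ 2 by decide), upd_same]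
    rintro rfl
    rw [Fm.sat_all]
    intro a4
    rw [Fm.sat_imp, Fm.sat_eq, upd_same, upd_ne _ _ (show (31 : ℕ) ≠ 4 by decide),
      upd_ne _ _ (show (31 : ℕ) ≠ 3 by decide), upd_ne _ _ (show (31 : ℕ) ≠ 2 by decide), upd_same]
    rintro rfl
    exact hGt _)
  rw [Fm.sat_all] at h2
  replace h2 := h2 k
  rw [Fm.sat_all] at h2
  replace h2 := h2 a
  rw [Fm.sat_all] at h2
  replace h2 := h2 u
  rw [Fm.sat_imp] at h2
  replace h2 := h2 (by simpa [Ew, upd] using h7)
  rw [Fm.sat_all] at h2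
  replace h2 := h2 w
  rw [Fm.sat_imp] at h2
  replace h2 := h2 (by simpa [Kw, upd] using h8)
  rw [Fm.sat_imp] at h2
  replace h2 := h2 (by
    unfold XX
    rw [Fm.sat_neg]
    intro hX
    apply hW
    simp only [Wn, col, lt, Fm.sat_all, Fm.sat_imp, Fm.sat_op] at hX ⊢
    intro a1 a2 a3 h3
    have h4 := hX a1 a2 a3 (by simpa [upd] using h3)
    simpa [upd] using h4)
  refine (sat_cong fun y hy => ?_).1 h2
  rcases free_Xi hP hy with rfl | rfl
  · rw [upd_same, upd_same]
  · simp [upd]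

/-- MODULE 5 -/
theorem fixQ : FixQT := fun _ _ hP hG =>
  ⟨closed_AA hP hG, pv_proof (Pool.Agent.TH690.J100.completeness _ _ (closed_AA hP hG)
    (closed_Th hP _) fun _ v hv => sat_Th hP hG v hv)⟩

end Pool.Agent.J6H30.MC
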